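import Pool.Agent.H242.GX.Stm4

set_option autoImplicit false

/-!
GX4-FOL (MP_ae5b4e_an, helper274 for helper242): assembly.
(`decomp`, `second_smul` and the structure of the proof are from `Pool/Agent/H726/GX/FINAL.lean`.)
-/

open Set Filter Topology
open scoped ContDiff

namespace Pool.Agent.H274.GX

open Pool.Agent.H242.GX

theorem decomp (w : ℂ) (θ : ℝ) : w = ip w (e θ) • e θ + ip w (nu θ) • nu θ := by
  have h := Real.cos_sq_add_sin_sq θ
  apply Complex.ext
  · simp only [ip, e, nu, Complex.add_re, Complex.real_smul, Complex.mul_re, Complex.ofReal_re,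
      Complex.ofReal_im, zero_mul, sub_zero]
    linear_combination (-w.re) * h
  · simp only [ip, e, nu, Complex.add_im, Complex.real_smul, Complex.mul_im, Complex.ofReal_re,
      Complex.ofReal_im, zero_mul, add_zero]
    linear_combination (-w.im) * h

theorem second_smul (Y : ℂ → ℝ) (z u : ℂ) (l : ℝ) :
    fderiv ℝ (fderiv ℝ Y) z (l • u) (l • u) = l ^ 2 * fderiv ℝ (fderiv ℝ Y) z u u := by
  rw [map_smul, map_smul]
  simp only [smul_apply, smul_eq_mul]
  ring

theorem e_eq : e = fun α : ℝ => (Real.cos α : ℂ) + (Real.sin α : ℂ) * Complex.I := by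
  funext α
  apply Complex.ext <;> simp [e, -Complex.ofReal_cos, -Complex.ofReal_sin]

theorem nu_eq : nu = fun α : ℝ => (Real.sin α : ℂ) - (Real.cos α : ℂ) * Complex.I := by
  funext α
  apply Complex.ext <;> simp [nu, -Complex.ofReal_cos, -Complex.ofReal_sin]

theorem e_smooth : ContDiff ℝ ∞ e := by
  rw [e_eq]
  exact (Complex.ofRealCLM.contDiff.comp Real.contDiff_cos).add
    ((Complex.ofRealCLM.contDiff.comp Real.contDiff_sin).mul contDiff_const)

theorem nu_smooth : ContDiff ℝ ∞ nu := by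
  rw [nu_eq]
  exact (Complex.ofRealCLM.contDiff.comp Real.contDiff_sin).sub
    ((Complex.ofRealCLM.contDiff.comp Real.contDiff_cos).mul contDiff_const)

theorem e_norm (θ : ℝ) : ‖e θ‖ = 1 := by
  have h := Real.cos_sq_add_sin_sq θ
  have h1 : Complex.normSq (e θ) = 1 := by
    rw [Complex.normSq_apply]
    show Real.cos θ * Real.cos θ + Real.sin θ * Real.sin θ = 1
    linarith
  rw [Complex.norm_def, h1, Real.sqrt_one]

theorem gam_smooth {p : ℝ → ℝ} (hp : Supp p) : ContDiff ℝ ∞ (gam p) :=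
  (hp.smooth.smul nu_smooth).add ((contDiff_infty_iff_deriv.1 hp.smooth).2.smul e_smooth)

theorem gam_per {p : ℝ → ℝ} (hp : Supp p) : Function.Periodic (gam p) (2 * Real.pi) := by
  intro θ
  have h1 : deriv p (θ + 2 * Real.pi) = deriv p θ := by
    have h2 : (fun x => p (x + 2 * Real.pi)) = p := funext hp.per
    have h3 := deriv_comp_add_const p (2 * Real.pi) θ
    rw [h2] at h3
    exact h3.symm
  unfold gam nu e
  rw [hp.per, h1, Real.sin_add_two_pi, Real.cos_add_two_pi]

/-- the curve is Lipschitz -/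
theorem gam_lip {p : ℝ → ℝ} (hp : Supp p) : ∃ Λ : ℝ, 0 < Λ ∧
    ∀ x y : ℝ, ‖gam p x - gam p y‖ ≤ Λ * |x - y| := by
  have hs := gam_smooth hp
  have hc : Continuous (deriv (gam p)) := (contDiff_infty_iff_deriv.1 hs).2.continuous
  have hper : Function.Periodic (deriv (gam p)) (2 * Real.pi) := by
    intro θ
    have h2 : (fun x => gam p (x + 2 * Real.pi)) = gam p := funext (gam_per hp)
    have h3 := deriv_comp_add_const (gam p) (2 * Real.pi) θ
    rw [h2] at h3
    exact h3.symm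
  obtain ⟨C, hC⟩ := (isCompact_Icc (a := (0 : ℝ)) (b := 0 + 2 * Real.pi)).exists_bound_of_continuousOn
    hc.continuousOn
  have hall : ∀ x, ‖deriv (gam p) x‖ ≤ |C| + 1 := by
    intro x
    obtain ⟨y, hy, hxy⟩ := hper.exists_mem_Ico Real.two_pi_pos x 0
    rw [hxy]
    refine (hC y ⟨hy.1, hy.2.le⟩).trans ?_
    linarith [le_abs_self C]
  refine ⟨|C| + 1, by positivity, fun x y => ?_⟩
  have h := convex_univ.norm_image_sub_le_of_norm_deriv_le (f := gam p) (C := |C| + 1)
    (fun x _ => (hs.differentiable (by simp)).differentiableAt) (fun x _ => hall x)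
    (mem_univ y) (mem_univ x)
  rwa [Real.norm_eq_abs] at h

theorem ip_gam {p : ℝ → ℝ} (θ : ℝ) : ip (gam p θ) (nu θ) = p θ := by
  have h := Real.cos_sq_add_sin_sq θ
  simp only [ip, gam, e, nu, Complex.add_re, Complex.add_im, Complex.real_smul, Complex.mul_re,
    Complex.mul_im, Complex.ofReal_re, Complex.ofReal_im, zero_mul, sub_zero, add_zero]
  linear_combination (p θ) * h

theorem gam_inj (hKEY : S_KEY) {p : ℝ → ℝ} (hp : Supp p) {θ θ₀ : ℝ} (h : gam p θ = gam p θ₀) :
    ∃ k : ℤ, θ = θ₀ + k * (2 * Real.pi) := by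
  have h1 := (hKEY p hp θ₀ 0 (fun α => by rw [add_zero]; exact hp.pos α) θ).2
  refine h1 ?_
  have h2 : Psi p θ₀ 0 = gam p θ₀ := by
    unfold Psi
    rw [zero_smul, add_zero]
  rw [h2, ← h, ip_gam, add_zero]

theorem gx_FOL (hWEB : S_WEB) (hFORMAL : S_FORMAL) (hEVENK : S_EVENK) (hDESC4 : S_DESC4)
    (hBODY : S_BODY) (hKEY : S_KEY) (hCONV : S_CONV) (hTAN : S_TAN) (hSIG : S_SIG) : S_FOL := by
  intro p hp z₀ hz₀
  obtain ⟨hT, hconv, hfr, _⟩ := hBODY p hp
  rw [hfr] at hz₀
  obtain ⟨θ₀, rfl⟩ := hz₀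
  obtain ⟨X, Z, hW⟩ := hWEB p hp
  obtain ⟨H₀, hH₀, hH₀per, hH₀0, hH₀d, hflat⟩ := hFORMAL p X Z hW
  obtain ⟨H, hH, hHper, hH0, hHd, c₁, hc₁, heven⟩ :=
    hEVENK X Z hW.toWeb θ₀ H₀ hH₀ hH₀per hH₀0 hflat
  have hHder : ∀ φ : ℝ, 0 < deriv (fun y => H (φ, y)) 0 := fun φ => by
    rw [hHd]
    exact hH₀d φ
  obtain ⟨V, Y, hV, hfV, hY, hY0, hYpos, hder, r, hr, hYH, hmono⟩ :=
    hDESC4 p X Z hW H hH hHper hH0 hHder
  have hne : ∀ z ∈ frontier (body p), fderiv ℝ Y z ≠ 0 := by
    intro z hz h0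
    rw [hfr] at hz
    obtain ⟨θ, rfl⟩ := hz
    have h1 := (hder θ).2.1
    rw [h0, zero_apply] at h1
    exact (hHder θ).ne h1
  have key : ∀ z ∈ frontier (body p), ∀ w : ℂ, w ≠ 0 → fderiv ℝ Y z w = 0 →
      0 < fderiv ℝ (fderiv ℝ Y) z w w := by
    intro z hz w hw hwY
    rw [hfr] at hz
    obtain ⟨θ, rfl⟩ := hz
    obtain ⟨h1, h2, h3⟩ := hder θ
    have hd := decomp w θ
    have hm : ip w (nu θ) = 0 := by
      rw [hd, map_add, map_smul, map_smul, h1, smul_zero, zero_add, smul_eq_mul, h2] at hwY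
      rcases mul_eq_zero.1 hwY with h | h
      · exact h
      · exact absurd h (hHder θ).ne'
    rw [hm, zero_smul, add_zero] at hd
    have hl : ip w (e θ) ≠ 0 := by
      intro h0
      rw [h0, zero_smul] at hd
      exact hw hd
    rw [hd, second_smul]
    have : 0 < ip w (e θ) ^ 2 := by positivity
    exact mul_pos this h3
  obtain ⟨U, hUV, hF⟩ := hCONV (body p) V Y hT.1 hconv hT.2.2.1 hV hfV hY hY0 hYpos hne key
  have hcomp : IsCompact (frontier (body p)) :=
    hT.1.of_isClosed_subset isClosed_frontier hT.1.isClosed.frontier_subset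
  obtain ⟨c₂, hc₂, hthick⟩ := hcomp.exists_thickening_subset_open hF.isOpen hF.frontier_subset
  obtain ⟨Λ, hΛ, hlip⟩ := gam_lip hp
  obtain ⟨c, hc, hcΛ, hcc₁, hcc₂, hcr⟩ : ∃ c : ℝ, 0 < c ∧ c * (Λ + 1) ≤ c₁ ∧ c < c₁ ∧ c < c₂ ∧
      c ≤ r := by
    refine ⟨min (min (c₁ / (Λ + 1)) (c₁ / 2)) (min (c₂ / 2) r), by positivity, ?_, ?_, ?_, ?_⟩
    · rw [← le_div_iff₀ (by positivity)]
      exact (min_le_left _ _).trans (min_le_left _ _)
    · have h1 : min (min (c₁ / (Λ + 1)) (c₁ / 2)) (min (c₂ / 2) r) ≤ c₁ / 2 :=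
        (min_le_left _ _).trans (min_le_right _ _)
      linarith
    · have h1 : min (min (c₁ / (Λ + 1)) (c₁ / 2)) (min (c₂ / 2) r) ≤ c₂ / 2 :=
        (min_le_right _ _).trans (min_le_left _ _)
      linarith
    · exact (min_le_right _ _).trans (min_le_right _ _)
  -- the symmetry on the tangent lines
  have hsym : ∀ θ t : ℝ, |t| ≤ r → Odd X H θ t = 0 →
      Y (gam p θ + t • e θ) = Y (gam p θ - t • e θ) := by
    intro θ t ht hodd
    have h1 := hYH θ t ht
    have h2 := hYH θ (-t) (by rwa [abs_neg])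
    rw [neg_smul, ← sub_eq_add_neg] at h2
    rw [h1, h2]
    unfold Pool.Agent.H242.GX.Odd at hodd
    linarith
  refine ⟨U, Y, c, hc, hF, ?_⟩
  intro z hz v hv
  have hzU : z ∈ U := hF.frontier_subset hz
  have hz' := hz
  rw [hfr] at hz'
  obtain ⟨θ', hθ'⟩ := hz'
  obtain ⟨θ, hθ, hθθ⟩ := (gam_per hp).exists_mem_Ico Real.two_pi_pos θ' θ₀
  rw [hθθ] at hθ'
  subst hθ'
  obtain ⟨l, hl, rfl⟩ := hTAN p hp θ v hv
  have hlpos : 0 < |l| := abs_pos.2 hl
  refine ⟨?_, ?_⟩
  · -- the involution is projective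
    obtain ⟨r', hr', hrr, hodd⟩ : ∃ r' : ℝ, 0 < r' ∧ r' ≤ r ∧
        ∀ t : ℝ, |t| < r' → Odd X H θ t = 0 := by
      rcases eq_or_lt_of_le hθ.1 with h | h
      · subst h
        exact ⟨min r c₁, lt_min hr hc₁, min_le_left _ _,
          fun t ht => heven.2 t (ht.trans_le (min_le_right _ _))⟩
      · have h1 : 0 < c₁ * (θ - θ₀) := mul_pos hc₁ (by linarith)
        have h2 : 0 < c₁ * (θ₀ + 2 * Real.pi - θ) := mul_pos hc₁ (by linarith [hθ.2])
        exact ⟨min r (min (c₁ * (θ - θ₀)) (c₁ * (θ₀ + 2 * Real.pi - θ))),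
          lt_min hr (lt_min h1 h2), min_le_left _ _,
          fun t ht => heven.1 θ t
            (ht.trans_le ((min_le_right _ _).trans (min_le_left _ _)))
            (ht.trans_le ((min_le_right _ _).trans (min_le_right _ _)))⟩
    have hev' : ∀ t : ℝ, |t| < r' / |l| →
        Y (gam p θ + t • (l • e θ)) = Y (gam p θ - t • (l • e θ)) := by
      intro t ht
      rw [smul_smul]
      have h1 : |t * l| < r' := by
        rw [abs_mul]
        exact (lt_div_iff₀ hlpos).1 ht
      exact hsym θ (t * l) (h1.le.trans hrr) (hodd _ h1)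
    refine hSIG U Y (gam p θ) (l • e θ) (r' / |l|) hF.isOpen hzU hF.smooth (div_pos hr' hlpos)
      hev' ?_
    rw [second_smul]
    have : 0 < l ^ 2 := by positivity
    exact mul_pos this (hder θ).2.2
  · intro hv1
    have hl1 : |l| = 1 := by
      rw [norm_smul, e_norm, mul_one, Real.norm_eq_abs] at hv1
      exact hv1
    refine ⟨?_, ?_, ?_, ?_⟩
    · intro t ht
      apply hthick
      rw [Metric.mem_thickening_iff]
      refine ⟨gam p θ, hz, ?_⟩
      rw [dist_eq_norm, add_sub_cancel_left, norm_smul, hv1, mul_one, Real.norm_eq_abs]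
      exact ht.trans_lt hcc₂
    · intro a ha b hb hab
      rcases eq_or_eq_neg_of_abs_eq hl1 with h | h
      · rw [h]
        show Y (gam p θ + b • ((1 : ℝ) • e θ)) < Y (gam p θ + a • ((1 : ℝ) • e θ))
        rw [one_smul]
        exact (hmono θ).1 ⟨by linarith [ha.1], ha.2⟩ ⟨by linarith [hb.1], hb.2⟩ hab
      · rw [h]
        show Y (gam p θ + b • ((-1 : ℝ) • e θ)) < Y (gam p θ + a • ((-1 : ℝ) • e θ))
        rw [smul_smul, smul_smul, mul_neg_one, mul_neg_one]
        exact (hmono θ).2 ⟨by linarith [hb.2], by linarith [hb.1]⟩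
          ⟨by linarith [ha.2], by linarith [ha.1]⟩ (neg_lt_neg hab)
    · intro a ha b hb hab
      rcases eq_or_eq_neg_of_abs_eq hl1 with h | h
      · rw [h]
        show Y (gam p θ + a • ((1 : ℝ) • e θ)) < Y (gam p θ + b • ((1 : ℝ) • e θ))
        rw [one_smul]
        exact (hmono θ).2 ⟨ha.1, by linarith [ha.2]⟩ ⟨hb.1, by linarith [hb.2]⟩ hab
      · rw [h]
        show Y (gam p θ + a • ((-1 : ℝ) • e θ)) < Y (gam p θ + b • ((-1 : ℝ) • e θ))
        rw [smul_smul, smul_smul, mul_neg_one, mul_neg_one]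
        exact (hmono θ).1 ⟨by linarith [hb.2], by linarith [hb.1]⟩
          ⟨by linarith [ha.2], by linarith [ha.1]⟩ (neg_lt_neg hab)
    · intro t ht hor
      rw [smul_smul]
      have h1 : |t * l| = |t| := by rw [abs_mul, hl1, mul_one]
      refine hsym θ (t * l) (by rw [h1]; exact ht.trans hcr) ?_
      rcases hor with h | h
      · have h2 := hlip θ θ₀
        have h3 : ‖gam p θ - gam p θ₀‖ ≤ Λ * |θ - (θ₀ + 2 * Real.pi)| := by
          rw [← gam_per hp θ₀]
          exact hlip θ (θ₀ + 2 * Real.pi)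
        rw [abs_of_nonneg (by linarith [hθ.1])] at h2
        rw [abs_of_nonpos (by linarith [hθ.2])] at h3
        have h4 : c * Λ ≤ c₁ := by nlinarith
        have h5 : 0 ≤ θ - θ₀ := by linarith [hθ.1]
        have h6 : 0 ≤ θ₀ + 2 * Real.pi - θ := by linarith [hθ.2]
        refine heven.1 θ (t * l) ?_ ?_
        · rw [h1]
          calc |t| < c * ‖gam p θ - gam p θ₀‖ := h
            _ ≤ c * (Λ * (θ - θ₀)) := mul_le_mul_of_nonneg_left h2 hc.le
            _ = c * Λ * (θ - θ₀) := by ring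
            _ ≤ c₁ * (θ - θ₀) := mul_le_mul_of_nonneg_right h4 h5
        · rw [h1]
          calc |t| < c * ‖gam p θ - gam p θ₀‖ := h
            _ ≤ c * (Λ * -(θ - (θ₀ + 2 * Real.pi))) := mul_le_mul_of_nonneg_left h3 hc.le
            _ = c * Λ * (θ₀ + 2 * Real.pi - θ) := by ring
            _ ≤ c₁ * (θ₀ + 2 * Real.pi - θ) := mul_le_mul_of_nonneg_right h4 h6
      · obtain ⟨k, hk⟩ := gam_inj hKEY hp h
        have hpi := Real.two_pi_pos
        have hk0 : k = 0 := by
          have h2 : (0 : ℝ) ≤ k * (2 * Real.pi) := by linarith [hθ.1]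
          have h3 : k * (2 * Real.pi) < 1 * (2 * Real.pi) := by linarith [hθ.2]
          have h4 : (k : ℝ) < 1 := lt_of_mul_lt_mul_right h3 hpi.le
          have h5 : (0 : ℝ) ≤ k := by
            by_contra h6
            push Not at h6
            nlinarith
          have h7 : k < 1 := by exact_mod_cast h4
          have h8 : 0 ≤ k := by exact_mod_cast h5
          omega
        have hθ0 : θ = θ₀ := by
          rw [hk, hk0]
          simp
        rw [hθ0]
        exact heven.2 (t * l) (by rw [h1]; exact ht.trans_lt hcc₁)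

end Pool.Agent.H274.GX
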